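import Pool.Agent.MP_6a4325_al.H62.Spec

/-!
Strongly irreducible representations of amenable groups over the algebraic numbers are
projectively torsion.
-/

set_option autoImplicit false

namespace Pool.Agent.MP_6a4325_al.H55

open Matrix Polynomial IntermediateField H62

lemma algQ : Algebra.IsAlgebraic ℚ Qb := AlgebraicClosure.isAlgebraic ℚ

lemma int_of_norm (q : ℚ) (h : ∀ (p : ℕ) [Fact p.Prime], ‖(q : ℚ_[p])‖ ≤ 1) :
    q ∈ Set.range (algebraMap ℤ ℚ) := by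
  have hd : q.den = 1 := by
    by_contra hn
    obtain ⟨p, hp, hd⟩ := Nat.exists_prime_and_dvd hn
    have := Fact.mk hp
    have h1 : ‖(q.den : ℚ_[p])‖ < 1 := Padic.norm_natCast_lt_one_iff.2 hd
    have h2 : ‖(q.num : ℚ_[p])‖ = 1 := Padic.norm_intCast_eq_one_iff.2
      (Int.isCoprime_iff_gcd_eq_one.2 (Nat.Coprime.coprime_dvd_right hd q.reduced))
    have h3 : (q.num : ℚ_[p]) = q * q.den := by exact_mod_cast (Rat.mul_den_eq_num q).symm
    rw [h3, norm_mul] at h2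
    nlinarith [h p, norm_nonneg (q : ℚ_[p]), norm_nonneg (q.den : ℚ_[p])]
  exact ⟨q.num, Rat.coe_int_num_of_den_eq_one hd⟩

lemma integral (μ : Qb) (h : ∀ (p : ℕ) [Fact p.Prime] (σ : Qb →+* PadicAlgCl p), ‖σ μ‖ ≤ 1) :
    IsIntegral ℤ μ := by
  have := algQ
  have : IsAlgClosure ℚ Qb := ⟨inferInstance, algQ⟩
  have ha : IsAlgebraic ℚ μ := Algebra.IsAlgebraic.isAlgebraic μ
  have hm := minpoly.monic ha.isIntegral
  have hl : minpoly ℚ μ ∈ lifts (algebraMap ℤ ℚ) := by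
    rw [lifts_iff_coeff_lifts]
    refine fun i => int_of_norm _ fun p _ => ?_
    let σ : Qb →ₐ[ℚ] PadicAlgCl p := IsAlgClosed.lift
    let O : Subring Qb := (Valued.v (R := PadicAlgCl p)).integer.comap σ.toRingHom
    have h1 : (minpoly ℚ μ).map (algebraMap ℚ Qb) ∈ lifts O.subtype := by
      refine (IsAlgClosed.splits _).mem_lift_of_roots_mem_range (hm.map _) _ fun x hx => ?_
      obtain ⟨τ, rfl⟩ := minpoly.exists_algEquiv_of_root' ha (x := x)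
        (by simpa [aeval_def, eval_map] using (mem_roots'.1 hx).2)
      exact ⟨⟨_, h p (σ.toRingHom.comp τ.toAlgHom.toRingHom)⟩, rfl⟩
    obtain ⟨⟨x, hx⟩, e⟩ := (lifts_iff_coeff_lifts _).1 h1 i
    have h2 : ‖σ x‖ ≤ 1 := hx
    have e' : x = algebraMap ℚ Qb ((minpoly ℚ μ).coeff i) := by rw [← coeff_map, ← e]; rfl
    rwa [e', σ.commutes, eq_ratCast, ← map_ratCast (algebraMap ℚ_[p] (PadicAlgCl p)),
      norm_algebraMap'] at h2
  obtain ⟨q, q1, -, q2⟩ := lifts_and_natDegree_eq_and_monic hl hm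
  exact ⟨q, q2, by rw [← aeval_def, ← aeval_map_algebraMap ℚ, q1, minpoly.aeval]⟩

lemma kron {μ : Qb} (h0 : μ ≠ 0) (hi : IsIntegral ℤ μ) (h : ∀ σ : Qb →+* ℂ, ‖σ μ‖ ≤ 1) :
    ∃ m, 0 < m ∧ μ ^ m = 1 := by
  have := algQ
  have : FiniteDimensional ℚ ℚ⟮μ⟯ := adjoin.finiteDimensional (Algebra.IsIntegral.isIntegral μ)
  have : NumberField ℚ⟮μ⟯ := {}
  obtain ⟨m, m0, hm⟩ := NumberField.Embeddings.pow_eq_one_of_norm_le_one ℚ⟮μ⟯ ℂ
    (x := AdjoinSimple.gen ℚ μ) (fun e => h0 (congrArg Subtype.val e))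
    ((isIntegral_algebraMap_iff (algebraMap ℚ⟮μ⟯ Qb).injective).1 hi) fun φ => by
      obtain ⟨σ, hσ⟩ := IsAlgClosed.surjective_domRestrict_of_isAlgebraic (K := ℚ) (L := ℚ⟮μ⟯)
        (M := ℂ) (E := Qb) φ.toRatAlgHom
      have := DFunLike.congr_fun hσ (AdjoinSimple.gen ℚ μ)
      exact (show σ μ = φ _ from this) ▸ h σ.toRingHom
  exact ⟨m, m0, congrArg Subtype.val hm⟩

variable {n : ℕ}

/-- the powers of `h` are bounded in the embedding `σ` -/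
def Bd {k : Type} [NormedField k] (σ : Qb →+* k) (h : Matrix (Fin n) (Fin n) Qb) : Prop :=
  ∃ B : ℝ, ∀ j a b, ‖σ ((h ^ j) a b)‖ ≤ B

lemma Bd.mul {k : Type} [NormedField k] {σ : Qb →+* k} {h : Matrix (Fin n) (Fin n) Qb}
    (hb : Bd σ h) (v : Fin n → Qb) : ∃ B : ℝ, ∀ j a, ‖σ ((h ^ j *ᵥ v) a)‖ ≤ B := by
  obtain ⟨B, hB⟩ := hb
  refine ⟨∑ b, B * ‖σ (v b)‖, fun j a => ?_⟩
  rw [mulVec, dotProduct, map_sum]
  refine (norm_sum_le _ _).trans (Finset.sum_le_sum fun b _ => ?_)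
  rw [map_mul, norm_mul]
  exact mul_le_mul_of_nonneg_right (hB j a b) (norm_nonneg _)

lemma Bd.eig {k : Type} [NormedField k] {σ : Qb →+* k} {h : Matrix (Fin n) (Fin n) Qb}
    (hb : Bd σ h) {μ : Qb} {v : Fin n → Qb} (v0 : v ≠ 0) (hv : h *ᵥ v = μ • v) : ‖σ μ‖ ≤ 1 := by
  obtain ⟨B, hB⟩ := hb.mul v
  obtain ⟨a, ha⟩ := Function.ne_iff.1 v0
  have h1 : 0 < ‖σ (v a)‖ := norm_pos_iff.2 ((_root_.map_ne_zero σ).2 ha)
  have h2 : ∀ j, h ^ j *ᵥ v = μ ^ j • v := fun j => by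
    induction j with
    | zero => simp
    | succ j ih => rw [pow_succ', ← mulVec_mulVec, ih, mulVec_smul, hv, smul_smul, pow_succ]
  by_contra hn
  obtain ⟨j, hj⟩ := pow_unbounded_of_one_lt (B / ‖σ (v a)‖) (not_le.1 hn)
  have h3 := hB j a
  rw [h2, Pi.smul_apply, smul_eq_mul, map_mul, norm_mul, map_pow, norm_pow] at h3
  exact absurd ((le_div_iff₀ h1).2 h3) (not_le.2 hj)

lemma Bd.unip {σ : Qb →+* ℂ} {u : Matrix (Fin n) (Fin n) Qb} (hb : Bd σ u) (k : ℕ)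
    (hk : (u - 1) ^ k = 0) : u = 1 := by
  obtain ⟨N, rfl⟩ : ∃ N, u = 1 + N := ⟨u - 1, by abel⟩
  rw [add_sub_cancel_left] at hk
  suffices ∀ k, N ^ (k + 1) = 0 → N = 0 by rw [this k (by rw [pow_succ, hk, zero_mul]), add_zero]
  intro k
  induction k with
  | zero => simp
  | succ k ih =>
    refine fun h => ih ?_
    have h1 : ∀ j : ℕ, (1 + N) ^ j * N ^ k = N ^ k + (j : Qb) • N ^ (k + 1) := fun j => by
      induction j with
      | zero => simp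
      | succ j ih =>
        rw [pow_succ', mul_assoc, ih, add_mul, one_mul, mul_add, mul_smul_comm, ← pow_succ',
          ← pow_succ', h, smul_zero, add_zero, Nat.cast_succ, add_smul, one_smul, add_assoc]
    ext a b
    by_contra h0
    obtain ⟨B, hB⟩ := hb.mul fun c => (N ^ k) c b
    have h2 : 0 < ‖σ ((N ^ (k + 1)) a b)‖ := norm_pos_iff.2 ((_root_.map_ne_zero σ).2 h0)
    obtain ⟨j, hj⟩ := exists_nat_gt ((B + ‖σ ((N ^ k) a b)‖) / ‖σ ((N ^ (k + 1)) a b)‖)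
    have h3 : ‖σ (((1 + N) ^ j * N ^ k) a b)‖ ≤ B := hB j a
    have h4 := norm_sub_le (σ (((1 + N) ^ j * N ^ k) a b)) (σ ((N ^ k) a b))
    rw [h1] at h3 h4
    rw [← map_sub, Matrix.add_apply, add_sub_cancel_left, Matrix.smul_apply, smul_eq_mul, map_mul,
      norm_mul, map_natCast, Complex.norm_natCast] at h4
    rw [div_lt_iff₀ h2] at hj
    rw [Matrix.add_apply, Matrix.smul_apply, smul_eq_mul] at h3
    linarith

lemma tors {h : Matrix (Fin n) (Fin n) Qb} (hd : h.det ≠ 0) (h1 : ∀ σ : Qb →+* ℂ, Bd σ h)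
    (h2 : ∀ (p : ℕ) [Fact p.Prime] (σ : Qb →+* PadicAlgCl p), Bd σ h) :
    ∃ m, 0 < m ∧ h ^ m = 1 := by
  have h3 : ∀ μ ∈ h.charpoly.roots, ∃ m, 0 < m ∧ μ ^ m = 1 := fun μ hμ => by
    have e : (scalar (Fin n) μ - h).det = 0 := by
      rw [← eval_charpoly]; exact (mem_roots'.1 hμ).2
    have μ0 : μ ≠ 0 := fun z => hd (by
      rwa [z, map_zero, zero_sub, det_neg, mul_eq_zero, or_iff_right (by simp)] at e)
    obtain ⟨v, v0, hv⟩ := exists_mulVec_eq_zero_iff.2 e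
    have hv' : h *ᵥ v = μ • v := by
      rw [sub_mulVec, sub_eq_zero] at hv
      rw [← hv]
      ext a
      simp [mulVec_diagonal]
    exact kron μ0 (integral μ fun p _ σ => (h2 p σ).eig v0 hv') fun σ => (h1 σ).eig v0 hv'
  choose! f f0 hf using h3
  let m := (h.charpoly.roots.map f).prod
  have m0 : 0 < m := Multiset.prod_pos fun a ha => by
    obtain ⟨μ, hμ, rfl⟩ := Multiset.mem_map.1 ha
    exact f0 μ hμ
  have h4 : h.charpoly ∣ (X ^ m - 1) ^ h.charpoly.roots.card := by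
    have := Multiset.prod_dvd_prod_of_dvd (S := h.charpoly.roots) (fun μ => X - C μ)
      (fun _ => (X ^ m - 1 : Qb[X])) fun μ hμ => by
        obtain ⟨c, hc⟩ : f μ ∣ m := Multiset.dvd_prod (Multiset.mem_map_of_mem f hμ)
        simp [dvd_iff_isRoot, hc, pow_mul, hf μ hμ]
    rwa [← (IsAlgClosed.splits _).eq_prod_roots_of_monic h.charpoly_monic, Multiset.map_const',
      Multiset.prod_replicate] at this
  obtain ⟨q, hq⟩ := h4
  have h5 := congrArg (aeval h) hq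
  rw [map_mul, aeval_self_charpoly, zero_mul, map_pow, map_sub, map_pow, aeval_X, map_one] at h5
  have := algQ
  let σ : Qb →ₐ[ℚ] ℂ := IsAlgClosed.lift
  obtain ⟨B, hB⟩ := h1 σ.toRingHom
  exact ⟨m, m0, Bd.unip (σ := σ.toRingHom) ⟨B, fun j => by rw [← pow_mul]; exact hB _⟩ _ h5⟩

variable {G : Type} [Group G]

lemma sir_of_spans {k : Type} [Field k] {ρ : G →* Matrix (Fin n) (Fin n) k} (h : Spans ρ) :
    SIr ρ := by
  intro K hK U hU
  refine or_iff_not_imp_left.2 fun h0 => eq_top_iff.2 fun w _ => ?_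
  obtain ⟨u, hu, u0⟩ := Submodule.exists_mem_ne_zero_of_ne_bot h0
  obtain ⟨a, ha⟩ := Function.ne_iff.1 u0
  have h1 : ∀ M ∈ Submodule.span k (ρ '' (K : Set G)), M *ᵥ u ∈ U := fun M hM => by
    induction hM using Submodule.span_induction with
    | mem x hx => obtain ⟨g, hg, rfl⟩ := hx; exact hU g hg u hu
    | zero => simp
    | add x y _ _ hx hy => rw [add_mulVec]; exact add_mem hx hy
    | smul c x _ hx => rw [smul_mulVec]; exact U.smul_mem c hx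
  convert h1 (of fun i j => if j = a then w i / u a else 0) (h K hK ▸ trivial) using 1
  ext i
  simp [mulVec, dotProduct, div_mul_cancel₀ _ (show u a ≠ 0 from ha)]

lemma det_ne (ρ : G →* Matrix (Fin n) (Fin n) Qb) (g : G) : (ρ g).det ≠ 0 :=
  left_ne_zero_of_mul_eq_one (b := (ρ g⁻¹).det) (by rw [← det_mul, ← map_mul]; simp)

lemma bd_of {k : Type} [NormedField k] (σ : Qb →+* k) (ρ : G →* Matrix (Fin n) (Fin n) Qb)
    (hn : n ≠ 0) (h : ∃ c : ℝ, 0 < c ∧ ∀ g i j, c * ‖σ.mapMatrix.toMonoidHom.comp ρ g i j‖ ^ n ≤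
      ‖(σ.mapMatrix.toMonoidHom.comp ρ g).det‖) (g : G) : Bd σ ((ρ g).det⁻¹ • ρ (g ^ n)) := by
  obtain ⟨c, c0, hc⟩ := h
  refine ⟨max 1 c⁻¹, fun j a b => ?_⟩
  have h1 : c * ‖σ (ρ ((g ^ n) ^ j) a b)‖ ^ n ≤ ‖(σ.mapMatrix (ρ ((g ^ n) ^ j))).det‖ :=
    hc ((g ^ n) ^ j) a b
  have d0 : 0 < ‖σ (ρ g).det‖ ^ j :=
    pow_pos (norm_pos_iff.2 ((_root_.map_ne_zero σ).2 (det_ne ρ g))) j
  have h2 : (ρ ((g ^ n) ^ j)).det = ((ρ g).det ^ j) ^ n := by
    rw [← pow_mul, ← pow_mul, map_pow, det_pow, mul_comm]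
  rw [← σ.map_det, h2, map_pow σ, map_pow σ, norm_pow, norm_pow] at h1
  rw [_root_.smul_pow, ← map_pow, Matrix.smul_apply, smul_eq_mul, map_mul, norm_mul, map_pow σ, map_inv₀,
    norm_pow, norm_inv, inv_pow, ← div_eq_inv_mul]
  refine le_max_iff.2 (or_iff_not_imp_left.2 fun h => (le_self_pow₀ (not_le.1 h).le hn).trans ?_)
  rw [div_pow, div_le_iff₀ (pow_pos d0 n), le_inv_mul_iff₀ c0]
  exact h1

theorem irr : SMeas → SBurn → SPad → SIrr := by
  intro hM hB hP G _ hG hA n ρ hρ g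
  rcases eq_or_ne n 0 with rfl | hn
  · exact ⟨1, 1, one_pos, Subsingleton.elim _ _⟩
  have d0 := det_ne ρ g
  obtain ⟨m, m0, hm⟩ := tors (h := (ρ g).det⁻¹ • ρ (g ^ n))
    (by rw [det_smul]; exact mul_ne_zero (pow_ne_zero _ (inv_ne_zero d0)) (det_ne ρ _))
    (fun σ => bd_of σ ρ hn (hM ℂ G hA n _ (sir_of_spans (hB G n ρ hρ ℂ σ))) g)
    fun p _ σ => bd_of σ ρ hn (hP p G hG hA n _ (hB G n ρ hρ _ σ)) g
  refine ⟨n * m, (ρ g).det ^ m, Nat.mul_pos (Nat.pos_of_ne_zero hn) m0, ?_⟩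
  rw [← hm, _root_.smul_pow, smul_smul, ← mul_pow, mul_inv_cancel₀ d0, one_pow, one_smul, pow_mul,
    map_pow]

end Pool.Agent.MP_6a4325_al.H55
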