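import Pool.Agent.MP_6a4325_al.H62.Base2

/-!
Row SERA: closure properties of series with cyclic or quasicyclic factors.
-/

set_option autoImplicit false

namespace Pool.Agent.MP_6a4325_al.H55

open Pool.Agent.MP_6a4325_al.H62

theorem mem_zpowers_of_pow {y x : ℂˣ} (hy : IsOfFinOrder y) (hx : x ^ orderOf y = 1) :
    x ∈ Subgroup.zpowers y := by
  have : NeZero (orderOf y) := ⟨hy.orderOf_pos.ne'⟩
  rw [(IsPrimitiveRoot.orderOf y).zpowers_eq]
  exact (mem_rootsOfUnity _ _).2 hx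

/-- a `p`-torsion subgroup of `ℂˣ` is everything or finite cyclic -/
theorem dich (p : ℕ) [hp : Fact p.Prime] (C : Subgroup ℂˣ) (hC : ∀ c ∈ C, ∃ j : ℕ, c ^ p ^ j = 1) :
    (∀ (x : ℂˣ) (j : ℕ), x ^ p ^ j = 1 → x ∈ C) ∨
      (IsCyclic C ∧ ∃ r : ℕ, ∀ x : ℂˣ, x ∈ C ↔ x ^ r = 1) := by
  by_cases h : ∀ (x : ℂˣ) (j : ℕ), x ^ p ^ j = 1 → x ∈ C
  · exact Or.inl h
  right
  push Not at h
  obtain ⟨x, j, hx, hxC⟩ := h
  have hall : ∀ y ∈ C, y ^ p ^ j = 1 := by
    intro y hy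
    by_contra hne
    obtain ⟨i, hi⟩ := hC y hy
    obtain ⟨l, -, hl⟩ := (Nat.dvd_prime_pow hp.out).1 (orderOf_dvd_of_pow_eq_one hi)
    have hfin : IsOfFinOrder y := isOfFinOrder_iff_pow_eq_one.2 ⟨_, pow_pos hp.out.pos i, hi⟩
    have hjl : j ≤ l := by
      by_contra hlt
      exact hne (orderOf_dvd_iff_pow_eq_one.1 (hl ▸ pow_dvd_pow p (by omega)))
    refine hxC ((Subgroup.zpowers_le.2 hy) (mem_zpowers_of_pow hfin ?_))
    rw [hl]
    exact orderOf_dvd_iff_pow_eq_one.1 ((orderOf_dvd_of_pow_eq_one hx).trans (pow_dvd_pow p hjl))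
  have : NeZero (p ^ j) := ⟨(pow_pos hp.out.pos j).ne'⟩
  have hle : C ≤ rootsOfUnity (p ^ j) ℂ := fun y hy => (mem_rootsOfUnity _ _).2 (hall y hy)
  have hcyc : IsCyclic C := Subgroup.isCyclic_of_le hle
  refine ⟨hcyc, ?_⟩
  obtain ⟨⟨y, hy⟩, hgen⟩ := IsCyclic.exists_generator (α := C)
  have hfin : IsOfFinOrder y :=
    isOfFinOrder_iff_pow_eq_one.2 ⟨_, pow_pos hp.out.pos j, hall y hy⟩
  refine ⟨orderOf y, fun z => ⟨fun hz => ?_, fun hz =>
    (Subgroup.zpowers_le.2 hy) (mem_zpowers_of_pow hfin hz)⟩⟩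
  obtain ⟨k, hk⟩ := Subgroup.mem_zpowers_iff.1 (hgen ⟨z, hz⟩)
  have hk' : y ^ k = z := congrArg Subtype.val hk
  rw [← hk', ← zpow_natCast, ← zpow_mul, mul_comm, zpow_mul, zpow_natCast, pow_orderOf_eq_one,
    one_zpow]

theorem exists_orderOf (n : ℕ) : ∃ z : ℂˣ, orderOf z = n := by
  rcases Nat.eq_zero_or_pos n with rfl | hn
  · refine ⟨Units.mk0 2 two_ne_zero, orderOf_eq_zero_iff'.2 fun m hm h => ?_⟩
    have h1 : (2 : ℂ) ^ m = 1 := by simpa using congrArg Units.val h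
    have h2 : (2 : ℕ) ^ m = 1 := by exact_mod_cast h1
    have := Nat.one_lt_two_pow hm.ne'
    omega
  · have h := Complex.isPrimitiveRoot_exp n hn.ne'
    have h' := h.isUnit_unit hn.ne'
    exact ⟨_, h'.eq_orderOf.symm⟩

theorem exists_inj (Q : Type) [Group Q] [IsCyclic Q] :
    ∃ θ : Q →* ℂˣ, Function.Injective θ := by
  obtain ⟨g, hg⟩ := IsCyclic.exists_generator (α := Q)
  obtain ⟨z, hz⟩ := exists_orderOf (orderOf g)
  have hz' : ∀ x : Subgroup.zpowers z,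
      x ∈ Subgroup.zpowers (⟨z, Subgroup.mem_zpowers z⟩ : Subgroup.zpowers z) := by
    rintro ⟨x, k, rfl⟩
    exact ⟨k, rfl⟩
  have ho : orderOf g = orderOf (⟨z, Subgroup.mem_zpowers z⟩ : Subgroup.zpowers z) := by
    rw [← hz, ← Subgroup.orderOf_coe]
  exact ⟨(Subgroup.zpowers z).subtype.comp (mulEquivOfOrderOfEq hg hz' ho).toMonoidHom,
    (Subgroup.zpowers z).subtype_injective.comp (mulEquivOfOrderOfEq hg hz' ho).injective⟩

/-- the kernel can be enlarged -/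
theorem enlarge (p : ℕ) [hp : Fact p.Prime] {K : Type} [Group K] (f : K →* ℂˣ)
    (hc : IsCyclic f.range ∨ ∀ x : K, ∃ j : ℕ, f x ^ p ^ j = 1) (N : Subgroup K)
    (hN : f.ker ≤ N) :
    ∃ φ : K →* ℂˣ, φ.ker = N ∧ (IsCyclic φ.range ∨ ∀ x : K, ∃ j : ℕ, φ x ^ p ^ j = 1) := by
  have hmem : ∀ x : K, f x ∈ N.map f ↔ x ∈ N := by
    intro x
    rw [← Subgroup.mem_comap, Subgroup.comap_map_eq, sup_eq_left.2 hN]
  rcases hc with hc | hc
  · let C' : Subgroup f.range := (N.map f).subgroupOf f.range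
    have : IsCyclic (f.range ⧸ C') :=
      isCyclic_of_surjective (QuotientGroup.mk' C') (QuotientGroup.mk'_surjective C')
    obtain ⟨θ, hθ⟩ := exists_inj (f.range ⧸ C')
    refine ⟨θ.comp ((QuotientGroup.mk' C').comp f.rangeRestrict), ?_, Or.inl ?_⟩
    · ext x
      rw [MonoidHom.mem_ker, MonoidHom.comp_apply, map_eq_one_iff θ hθ, MonoidHom.comp_apply,
        QuotientGroup.mk'_apply, QuotientGroup.eq_one_iff, Subgroup.mem_subgroupOf]
      exact hmem x
    · have : IsCyclic θ.range :=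
        isCyclic_of_surjective θ.rangeRestrict θ.rangeRestrict_surjective
      refine Subgroup.isCyclic_of_le (H' := θ.range) ?_
      rintro _ ⟨x, rfl⟩
      exact ⟨_, rfl⟩
  · rcases dich p (N.map f) (by rintro _ ⟨x, -, rfl⟩; exact hc x) with h | ⟨-, r, hr⟩
    · refine ⟨1, ?_, Or.inr fun x => ⟨0, by simp⟩⟩
      ext x
      obtain ⟨j, hj⟩ := hc x
      simpa using (hmem x).1 (h _ j hj)
    · refine ⟨(powMonoidHom r).comp f, ?_, Or.inr fun x => ?_⟩
      · ext x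
        rw [MonoidHom.mem_ker, MonoidHom.comp_apply, powMonoidHom_apply, ← hr, hmem]
      · obtain ⟨j, hj⟩ := hc x
        exact ⟨j, by rw [MonoidHom.comp_apply, powMonoidHom_apply, ← pow_mul, mul_comm, pow_mul,
          hj, one_pow]⟩

section

variable {p : ℕ} {G G' : Type} [Group G] [Group G']

theorem fac_comap (f : G' →* G) {H K : Subgroup G} (h : Fac p H K) :
    Fac p (H.comap f) (K.comap f) := by
  obtain ⟨hle, f0, hker, hc⟩ := h
  refine ⟨Subgroup.comap_mono hle, f0.comp (f.subgroupComap K), ?_, ?_⟩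
  · ext x
    rw [MonoidHom.mem_ker, MonoidHom.comp_apply, ← MonoidHom.mem_ker, hker]
    rfl
  · rcases hc with hc | hc
    · refine Or.inl (Subgroup.isCyclic_of_le (H' := f0.range) ?_)
      rintro _ ⟨x, rfl⟩
      exact ⟨_, rfl⟩
    · exact Or.inr fun x => hc _

theorem fac_map [Fact p.Prime] (f : G →* G') {H K : Subgroup G} (h : Fac p H K) :
    Fac p (H.map f) (K.map f) := by
  obtain ⟨hle, f0, hker, hc⟩ := h
  have hg := f.subgroupMap_surjective K
  obtain ⟨φ, hφ, hc'⟩ := enlarge p f0 hc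
    (((H.map f).subgroupOf (K.map f)).comap (f.subgroupMap K)) (by
      intro x hx
      rw [hker] at hx
      exact ⟨x, hx, rfl⟩)
  have hk : (f.subgroupMap K).ker ≤ φ.ker := by
    intro x hx
    rw [hφ, Subgroup.mem_comap, MonoidHom.mem_ker.1 hx]
    exact one_mem _
  let ψ : K.map f →* ℂˣ := (f.subgroupMap K).liftOfSurjective hg ⟨φ, hk⟩
  have hψ : ∀ x : K, ψ (f.subgroupMap K x) = φ x := fun x =>
    MonoidHom.liftOfRightInverse_comp_apply _ _ _ _ x
  refine ⟨Subgroup.map_mono hle, ψ, ?_, ?_⟩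
  · ext y
    obtain ⟨x, rfl⟩ := hg y
    rw [MonoidHom.mem_ker, hψ, ← MonoidHom.mem_ker, hφ, Subgroup.mem_comap]
  · rcases hc' with hc' | hc'
    · refine Or.inl (Subgroup.isCyclic_of_le (H' := φ.range) ?_)
      rintro _ ⟨y, rfl⟩
      obtain ⟨x, rfl⟩ := hg y
      exact ⟨x, (hψ x).symm⟩
    · refine Or.inr fun y => ?_
      obtain ⟨x, rfl⟩ := hg y
      rw [hψ]
      exact hc' x

theorem ser_le {H K : Subgroup G} (h : Ser p H K) : H ≤ K := by
  induction h with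
  | refl => exact le_rfl
  | tail _ h2 ih => exact ih.trans h2.1

theorem ser_comap (f : G' →* G) {H K : Subgroup G} (h : Ser p H K) :
    Ser p (H.comap f) (K.comap f) := by
  induction h with
  | refl => exact Relation.ReflTransGen.refl
  | tail _ h2 ih => exact Relation.ReflTransGen.tail ih (fac_comap f h2)

theorem ser_map [Fact p.Prime] (f : G →* G') {H K : Subgroup G} (h : Ser p H K) :
    Ser p (H.map f) (K.map f) := by
  induction h with
  | refl => exact Relation.ReflTransGen.refl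
  | tail _ h2 ih => exact Relation.ReflTransGen.tail ih (fac_map f h2)

theorem ser_inf [Fact p.Prime] {H K : Subgroup G} (L : Subgroup G) (h : Ser p H K) :
    Ser p (H ⊓ L) (K ⊓ L) := by
  have := ser_map L.subtype (ser_comap L.subtype h)
  rwa [Subgroup.comap_subtype, Subgroup.comap_subtype, Subgroup.subgroupOf_map_subtype,
    Subgroup.subgroupOf_map_subtype] at this

theorem ser_of_sub [Fact p.Prime] {H K : Subgroup G} (hle : H ≤ K)
    (h : Ser p (H.subgroupOf K) ⊤) : Ser p H K := by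
  have := ser_map K.subtype h
  rwa [Subgroup.subgroupOf_map_subtype, inf_eq_left.2 hle, ← MonoidHom.range_eq_map,
    Subgroup.range_subtype] at this

theorem ser_up [Fact p.Prime] {H H' K : Subgroup G} (h1 : H ≤ H') (h2 : H' ≤ K) (hn : Nz H' K)
    (h : Ser p H K) : Ser p H' K := by
  have := hn.normal_subgroupOf
  refine ser_of_sub h2 ?_
  have := ser_comap (QuotientGroup.mk' (H'.subgroupOf K))
    (ser_map (QuotientGroup.mk' (H'.subgroupOf K)) (ser_comap K.subtype h))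
  rwa [Subgroup.comap_map_eq, Subgroup.comap_map_eq, QuotientGroup.ker_mk',
    Subgroup.comap_subtype, Subgroup.comap_subtype, Subgroup.subgroupOf_self, top_sup_eq,
    sup_eq_right.2 (show H.subgroupOf K ≤ H'.subgroupOf K from fun _ hx => h1 hx)] at this

theorem ser_hom [Fact p.Prime] {H K : Subgroup G} (f : K →* G') (B : Subgroup G') (hle : H ≤ K)
    (hk : ∀ x : K, f x = 1 ↔ (x : G) ∈ H) (hB : ∀ x, f x ∈ B) (h : Ser p ⊥ B) : Ser p H K := by
  refine ser_of_sub hle ?_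
  have := ser_comap f h
  have e1 : (⊥ : Subgroup G').comap f = H.subgroupOf K := by
    ext x
    rw [Subgroup.mem_comap, Subgroup.mem_bot, hk, Subgroup.mem_subgroupOf]
  have e2 : B.comap f = ⊤ := eq_top_iff.2 fun x _ => hB x
  rwa [e1, e2] at this

theorem ser_iInf [Fact p.Prime] {ι : Type} (s : Finset ι) (H : ι → Subgroup G) (K : Subgroup G)
    (h : ∀ i ∈ s, Ser p (H i) K) : Ser p (K ⊓ ⨅ i ∈ s, H i) K := by
  classical
  induction s using Finset.induction_on with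
  | empty =>
    have : (K ⊓ ⨅ i ∈ (∅ : Finset ι), H i) = K := by simp
    rw [this]
    exact Relation.ReflTransGen.refl
  | insert a s _ ih =>
    have h1 := ih fun i hi => h i (Finset.mem_insert_of_mem hi)
    have h2 := ser_inf (K ⊓ ⨅ i ∈ s, H i) (h a (Finset.mem_insert_self a s))
    rw [← inf_assoc K K, inf_idem] at h2
    rw [Finset.iInf_insert, inf_left_comm]
    exact Relation.ReflTransGen.trans h2 h1

theorem fac_step [hp : Fact p.Prime] {H K : Subgroup G} (h : Fac p H K) : H ≤ K ∧ Nz H K ∧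
    ((∃ t ∈ K, K = H ⊔ Subgroup.zpowers t) ∨
      ((∀ x ∈ K, ∃ j : ℕ, x ^ p ^ j ∈ H) ∧
        ∀ x ∈ K, ∀ n : ℕ, 0 < n → ∃ y ∈ K, x⁻¹ * y ^ n ∈ H)) := by
  obtain ⟨hle, f, hker, hc⟩ := h
  have hm : ∀ x : K, f x = 1 ↔ (x : G) ∈ H := fun x => by
    rw [← MonoidHom.mem_ker, hker, Subgroup.mem_subgroupOf]
  have hcyc : IsCyclic f.range → ∃ t ∈ K, K = H ⊔ Subgroup.zpowers t := by
    intro hc
    obtain ⟨⟨_, t, rfl⟩, hgen⟩ := IsCyclic.exists_generator (α := f.range)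
    refine ⟨t, t.2, le_antisymm (fun x hx => ?_) (sup_le hle (Subgroup.zpowers_le.2 t.2))⟩
    obtain ⟨k, hk⟩ := Subgroup.mem_zpowers_iff.1 (hgen ⟨f ⟨x, hx⟩, _, rfl⟩)
    have hk' : f t ^ k = f ⟨x, hx⟩ := congrArg Subtype.val hk
    have h1 : x * ((t : G) ^ k)⁻¹ ∈ H := by
      have := (hm (⟨x, hx⟩ * (t ^ k)⁻¹)).1 (by rw [map_mul, map_inv, map_zpow, hk', mul_inv_cancel])
      simpa using this
    have : x = x * ((t : G) ^ k)⁻¹ * (t : G) ^ k := by group
    rw [this]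
    exact Subgroup.mul_mem_sup h1 (Subgroup.zpow_mem_zpowers _ k)
  refine ⟨hle, fun k hk x hx => ?_, ?_⟩
  · have := (hm (⟨k, hk⟩ * ⟨x, hle hx⟩ * (⟨k, hk⟩ : K)⁻¹)).1 (by
      rw [map_mul, map_mul, map_inv, (hm ⟨x, hle hx⟩).2 hx, mul_one, mul_inv_cancel])
    simpa using this
  rcases hc with hc | hc
  · exact Or.inl (hcyc hc)
  rcases dich p f.range (by rintro _ ⟨x, rfl⟩; exact hc x) with h | ⟨h, -⟩
  swap
  · exact Or.inl (hcyc h)
  refine Or.inr ⟨fun x hx => ?_, fun x hx n hn => ?_⟩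
  · obtain ⟨j, hj⟩ := hc ⟨x, hx⟩
    exact ⟨j, by simpa using (hm (⟨x, hx⟩ ^ p ^ j)).1 (by rw [map_pow, hj])⟩
  · obtain ⟨j, hj⟩ := hc ⟨x, hx⟩
    obtain ⟨a, m, hm', rfl⟩ := Nat.exists_eq_pow_mul_and_not_dvd hn.ne' p hp.out.ne_one
    obtain ⟨u0, hu0⟩ := IsAlgClosed.exists_pow_nat_eq ((f ⟨x, hx⟩ : ℂˣ) : ℂ) (pow_pos hp.out.pos a)
    have hne : u0 ≠ 0 := by
      rintro rfl
      rw [zero_pow (pow_pos hp.out.pos a).ne'] at hu0
      exact (f ⟨x, hx⟩).ne_zero hu0.symm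
    have hu : Units.mk0 u0 hne ^ p ^ a = f ⟨x, hx⟩ := Units.ext (by simpa using hu0)
    have hu1 : Units.mk0 u0 hne ^ p ^ (a + j) = 1 := by rw [pow_add, pow_mul, hu, hj]
    have hcop : m.Coprime (orderOf (Units.mk0 u0 hne)) :=
      Nat.Coprime.coprime_dvd_right (orderOf_dvd_of_pow_eq_one hu1)
        (((Nat.Prime.coprime_iff_not_dvd hp.out).2 hm').symm.pow_right _)
    obtain ⟨m', hmm⟩ := exists_pow_eq_self_of_coprime hcop
    obtain ⟨y, hy⟩ := h _ _ hu1
    refine ⟨(y ^ m' : K), (y ^ m').2, ?_⟩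
    have := (hm ((⟨x, hx⟩ : K)⁻¹ * (y ^ m') ^ (p ^ a * m))).1 (by
      rw [map_mul, map_inv, map_pow, map_pow, hy, ← pow_mul, ← hu,
        show m' * (p ^ a * m) = m * m' * p ^ a by ring, pow_mul, pow_mul, hmm, inv_mul_cancel])
    simpa using this

end

theorem serA : SSerB → SSer := fun hB p _ =>
  { toSerB := hB p
    le := fun _ _ _ _ h => ser_le h
    comap := fun _ _ _ _ f _ _ h => ser_comap f h
    map := fun _ _ _ _ f _ _ h => ser_map f h
    inf := fun _ _ _ _ L h => ser_inf L h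
    up := fun _ _ _ _ _ h1 h2 hn h => ser_up h1 h2 hn h
    hom := fun _ _ _ _ _ _ f B hle hk hB' h => ser_hom f B hle hk hB' h
    iInf := fun _ _ _ s H K h => ser_iInf s H K h
    step := fun _ _ _ _ h => fac_step h }

end Pool.Agent.MP_6a4325_al.H55
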