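import Pool.Agent.MP_6a4325_al.H84.Spec3
import Pool.Agent.MP_6a4325_al.H62.Spf2

/-!
Specialisation of absolutely irreducible representations; groups whose degrees are all one.
-/

set_option autoImplicit false

namespace Pool.Agent.MP_6a4325_al.H55

open Pool.Agent.MP_6a4325_al.H62 Pool.Agent.MP_6a4325_al.H84 Matrix

namespace Spc3

theorem fin_spec (p : ℕ) [Fact p.Prime] {L K : Type} [Group L] [Finite L] [Field K] [CharP K p]
    {n : ℕ} (ρ : L →* Matrix (Fin n) (Fin n) K) (h : AI ρ) :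
    ∃ ρ' : L →* Matrix (Fin n) (Fin n) (Kp p), AI ρ' := by
  let _ := ZMod.algebra K p
  let _ := Fintype.ofFinite L
  have h1 : ∀ ij : Fin n × Fin n, ∃ c : L → K, ∑ g, c g • ρ g = Matrix.single ij.1 ij.2 1 :=
    fun ij => (Submodule.mem_span_range_iff_exists_fun K).1 (h ▸ Submodule.mem_top)
  choose c hc using h1
  let E : Set K := Set.range (fun x : L × Fin n × Fin n => ρ x.1 x.2.1 x.2.2) ∪
    Set.range fun x : (Fin n × Fin n) × L => c x.1 x.2
  have hE : E.Finite := (Set.finite_range _).union (Set.finite_range _)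
  let R₀ : Subalgebra (ZMod p) K := Algebra.adjoin (ZMod p) E
  have hft : Algebra.FiniteType (ZMod p) R₀ :=
    (Subalgebra.fg_iff_finiteType R₀).mp (Subalgebra.fg_def.mpr ⟨E, hE, rfl⟩)
  obtain ⟨φ, -⟩ := exists_algHom_kp p R₀
  have hρ : ∀ g i j, ρ g i j ∈ R₀ := fun g i j => Algebra.subset_adjoin (Or.inl ⟨(g, i, j), rfl⟩)
  have hcm : ∀ ij g, c ij g ∈ R₀ := fun ij g => Algebra.subset_adjoin (Or.inr ⟨(ij, g), rfl⟩)
  let r₀ : L → Matrix (Fin n) (Fin n) R₀ := fun g => Matrix.of fun i j => ⟨ρ g i j, hρ g i j⟩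
  have hr₀ : ∀ g, R₀.val.mapMatrix (r₀ g) = ρ g := fun g => rfl
  have hinj : Function.Injective
      (R₀.val.mapMatrix : Matrix (Fin n) (Fin n) R₀ →ₐ[ZMod p] Matrix (Fin n) (Fin n) K) :=
    Matrix.map_injective Subtype.val_injective
  let ρ₀ : L →* Matrix (Fin n) (Fin n) R₀ :=
    { toFun := r₀
      map_one' := hinj (by rw [hr₀, map_one, map_one])
      map_mul' := fun a b => hinj (by rw [hr₀, map_mul, map_mul, hr₀, hr₀]) }
  let ρ' : L →* Matrix (Fin n) (Fin n) (Kp p) :=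
    (φ.mapMatrix : Matrix (Fin n) (Fin n) R₀ →ₐ[ZMod p]
      Matrix (Fin n) (Fin n) (Kp p)).toMonoidHom.comp ρ₀
  have h2 : ∀ i j : Fin n, ∑ g, φ ⟨c (i, j) g, hcm _ g⟩ • ρ' g = Matrix.single i j 1 := by
    intro i j
    ext a b
    have h3 : (∑ g, (⟨c (i, j) g, hcm _ g⟩ * r₀ g a b : R₀)) =
        if i = a ∧ j = b then 1 else 0 := by
      apply Subtype.val_injective
      have := congrFun (congrFun (hc (i, j)) a) b
      rw [Matrix.sum_apply, Matrix.single_apply] at this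
      rw [AddSubmonoidClass.coe_finsetSum, apply_ite Subtype.val]
      exact this
    have h4 := congrArg φ h3
    rw [map_sum, apply_ite φ, map_one, map_zero] at h4
    rw [Matrix.sum_apply, Matrix.single_apply, ← h4]
    exact Finset.sum_congr rfl fun g _ => (map_mul φ _ _).symm
  refine ⟨ρ', top_le_iff.1 fun A _ => ?_⟩
  rw [Matrix.matrix_eq_sum_single A]
  refine sum_mem fun i _ => sum_mem fun j _ => ?_
  rw [← mul_one (A i j), ← smul_eq_mul, ← Matrix.smul_single, ← h2]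
  exact Submodule.smul_mem _ _ (sum_mem fun g _ =>
    Submodule.smul_mem _ _ (Submodule.subset_span ⟨g, rfl⟩))

theorem fg_sub {G K : Type} [Group G] [Field K] {n : ℕ} {N : Subgroup G}
    (ρ : N →* Matrix (Fin n) (Fin n) K) (h : AI ρ) :
    ∃ (L : Subgroup G) (hL : L ≤ N), L.FG ∧ AI (ρ.comp (Subgroup.inclusion hL)) := by
  have h1 : (Submodule.span K (Set.range ρ)).FG := by
    rw [h]
    exact Module.Finite.fg_top
  obtain ⟨s, hs, e⟩ := (Submodule.fg_span_iff_fg_span_finset_subset _).1 h1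
  choose g hg using fun x : s => hs x.2
  have hL : Subgroup.closure (Set.range fun x : s => (g x : G)) ≤ N :=
    (Subgroup.closure_le _).2 (by rintro _ ⟨x, rfl⟩; exact (g x).2)
  refine ⟨_, hL, (Subgroup.fg_iff _).2 ⟨_, rfl, Set.finite_range _⟩, top_le_iff.1 ?_⟩
  rw [← h, e]
  exact Submodule.span_mono fun x hx =>
    ⟨⟨g ⟨x, hx⟩, Subgroup.subset_closure ⟨⟨x, hx⟩, rfl⟩⟩, hg ⟨x, hx⟩⟩

theorem comm_ker {G K M : Type} [Group G] [Field K] [AddCommGroup M] [Module K M]
    [FiniteDimensional K M] (ρ : Representation K G M) (h : Module.finrank K M ≤ 1) :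
    ∀ g ∈ commutator G, ρ g = 1 := by
  obtain ⟨w, hw⟩ := finrank_le_one_iff.1 h
  have h1 : ∀ a b : G, ρ a * ρ b = ρ b * ρ a := fun a b => LinearMap.ext fun u => by
    obtain ⟨e, rfl⟩ := hw u
    obtain ⟨c, hc⟩ := hw (ρ a w)
    obtain ⟨d, hd⟩ := hw (ρ b w)
    simp only [Module.End.mul_apply, map_smul, ← hc, ← hd]
    rw [smul_comm d c]
  have h2 : commutator G ≤ MonoidHom.ker ρ := by
    rw [commutator_def, Subgroup.commutator_le]
    intro a _ b _
    rw [MonoidHom.mem_ker, commutatorElement_def, map_mul, map_mul, map_mul, h1 a b,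
      ← map_mul, ← map_mul, ← map_mul, mul_inv_cancel_right, mul_inv_cancel, map_one]
  exact fun g hg => h2 hg

theorem gen_sub {G K M : Type} [Group G] [Field K] [AddCommGroup M] [Module K M]
    (ρ : Representation K G M) (v : M) :
    gen (ρ.subrepresentation _ (inv_gen ρ {v})) {⟨v, mem_gen ρ rfl⟩} = ⊤ := by
  refine top_le_iff.1 fun ⟨u, hu⟩ _ => ?_
  induction hu using Submodule.span_induction with
  | mem x hx =>
    obtain ⟨g, t, rfl, rfl⟩ := hx
    exact Submodule.subset_span ⟨g, _, rfl, rfl⟩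
  | zero => exact zero_mem _
  | add x y hx hy h1 h2 => exact add_mem (h1 trivial) (h2 trivial)
  | smul c x hx h1 => exact Submodule.smul_mem _ c (h1 trivial)

/-- A vector killed by the sum over a finite subgroup of the commutator subgroup. -/
theorem card_zero (hA : AiApi) {p : ℕ} {G K M : Type} [Group G] [Field K] [IsAlgClosed K]
    [CharP K p] [AddCommGroup M] [Module K M] [FiniteDimensional K M] (hB : Bd p G 1)
    (ρ : Representation K G M) {v : M} (hv : v ≠ 0) (Z : Subgroup G) [Fintype Z]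
    (hZ : Z ≤ commutator G) (h : ∑ a : Z, ρ a v = 0) : p ∣ Fintype.card Z := by
  let σ := ρ.subrepresentation _ (inv_gen ρ {v})
  let v₀ : gen ρ {v} := ⟨v, mem_gen ρ rfl⟩
  have h0 : gen σ {v₀} = ⊤ := gen_sub ρ v
  obtain ⟨U, hU, -, hI⟩ := exists_irr_quot σ {v₀} (by rw [Finset.coe_singleton, h0]) ⊥
    (fun g u hu => by rw [(Submodule.mem_bot K).1 hu, map_zero]; exact zero_mem _)
    fun e => hv (congrArg Subtype.val ((Submodule.mem_bot K).1 (e ▸ Submodule.mem_top : v₀ ∈ ⊥)))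
  have h1 := hB K _ _ (hA.burn K G _ _ (Module.finBasis K _) _ hI)
  have h2 := comm_ker (σ.quotient U hU) h1
  have h3 : U.mkQ v₀ ≠ 0 := fun e => by
    have h4 : gen σ {v₀} ≤ U := gen_le hU fun t ht => by
      rw [Set.mem_singleton_iff.1 ht]
      exact (Submodule.Quotient.mk_eq_zero U).1 e
    rw [h0, top_le_iff] at h4
    exact Submodule.Quotient.nontrivial_iff.1 hI.1 h4
  have h4 : ∑ a : Z, σ a v₀ = 0 := Subtype.ext (by
    rw [AddSubmonoidClass.coe_finsetSum]
    exact h)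
  have h5 : ∀ a : Z, U.mkQ (σ a v₀) = U.mkQ v₀ := fun a =>
    LinearMap.congr_fun (h2 a (hZ a.2)) (U.mkQ v₀)
  have h6 := congrArg U.mkQ h4
  rw [map_sum, map_zero, Finset.sum_congr rfl fun a _ => h5 a, Finset.sum_const,
    ← Nat.cast_smul_eq_nsmul K, smul_eq_zero] at h6
  exact (CharP.cast_eq_zero_iff K p _).1 (h6.resolve_right h3)

end Spc3

theorem spc : AiApi → SSpc := by
  intro hA p _ G _ D hL hB N K _ _ _ n ρ h
  rcases n with _ | n
  · exact Nat.zero_le D
  obtain ⟨L, hLN, h1, h2⟩ := Spc3.fg_sub ρ h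
  have := hL L h1
  obtain ⟨ρ', h3⟩ := Spc3.fin_spec p _ h2
  have h4 := hB L h1 _ _ (hA.irr _ _ _ ρ' h3)
  rwa [Module.finrank_fin_fun] at h4

theorem last3 : AiApi → SFdl → SLast := by
  intro hA _ p _ G _ hL hW hB g
  classical
  have fg1 : ∀ g : G, Finite (Subgroup.zpowers g) := fun g =>
    hL _ ⟨{g}, by rw [Finset.coe_singleton, Subgroup.zpowers_eq_closure]⟩
  have h0 : IsOfFinOrder (g : G) := finite_zpowers.1 (fg1 g)
  obtain ⟨j, m, h1, h2⟩ := Nat.exists_eq_pow_mul_and_not_dvd h0.orderOf_pos.ne' p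
    (Fact.out : p.Prime).ne_one
  refine ⟨j, Subtype.ext ?_⟩
  change (g : G) ^ p ^ j = 1
  obtain ⟨g₁, hg⟩ : ∃ g₁, g₁ = (g : G) ^ p ^ j := ⟨_, rfl⟩
  have h3 : orderOf g₁ ∣ m :=
    orderOf_dvd_of_pow_eq_one (by rw [hg, ← pow_mul, ← h2, pow_orderOf_eq_one])
  have h4 : Subgroup.zpowers g₁ ≤ commutator G := by
    rw [Subgroup.zpowers_le, hg]
    exact pow_mem g.2 _
  rw [← hg]
  by_contra hne
  have := fg1 g₁
  let _ := Fintype.ofFinite (Subgroup.zpowers g₁)
  let δ : G → ZMod p := fun x => if x = 1 then 1 else 0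
  obtain ⟨K, _, _, _, n, τ, v, hv, hs⟩ := hW.sol_of_fun (fun x => δ x - δ (x * g₁))
    ⟨1, by simp [δ, hne]⟩
  have hp : CharP K p := charP_of_injective_algebraMap (algebraMap (ZMod p) K).injective p
  have h5 := hs (∑ a : Subgroup.zpowers g₁, MonoidAlgebra.single (a : G) 1) fun x => by
    let lm : MonoidAlgebra (ZMod p) G →+ ZMod p :=
      (Finsupp.linearCombination (ZMod p) fun a => δ (x * a) - δ (x * a * g₁)).toAddMonoidHom.comp
        (MonoidAlgebra.coeffAddEquiv (R := ZMod p) (M := G)).toAddMonoidHom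
    have lm_single : ∀ a, lm (MonoidAlgebra.single a 1) = δ (x * a) - δ (x * a * g₁) := fun a => by
      change (MonoidAlgebra.single a (1 : ZMod p)).coeff.sum
        (fun a c => c • (δ (x * a) - δ (x * a * g₁))) = _
      rw [MonoidAlgebra.coeff_single]
      refine (Finsupp.sum_single_index ?_).trans (one_smul _ _)
      exact zero_smul (ZMod p) _
    change lm _ = 0
    rw [map_sum]
    simp only [lm_single]
    rw [Finset.sum_sub_distrib, sub_eq_zero]
    refine (Fintype.sum_equiv (Equiv.mulRight (⟨g₁, Subgroup.mem_zpowers g₁⟩ :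
      Subgroup.zpowers g₁)) _ _ fun a => ?_).symm
    rw [mul_assoc]
    rfl
  rw [map_sum, Matrix.sum_mulVec, Finset.sum_congr rfl fun a _ => by rw [act_single_one]] at h5
  have h6 := Spc3.card_zero hA hB (lin τ) hv _ h4 h5
  rw [← Nat.card_eq_fintype_card, Nat.card_zpowers] at h6
  exact h1 (h6.trans h3)

end Pool.Agent.MP_6a4325_al.H55
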